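import Mathlib
import Pool.Agent.H16.Markov

set_option autoImplicit false

namespace Pool.Agent.Results.MP_41928e_lc.Counter

open Pool.Agent.H16.Markov

/-- A layered graph in which the attacker's strategy in every Nash equilibrium fails to have
product form; in particular no Nash equilibrium is Markovian. -/
theorem result :
    ∃ G : Layered, Nonempty G.Path ∧
      ∀ xd xa : G.Path → ℝ, G.NE xd xa → ¬ G.ProductForm xa :=
  ⟨G0, ⟨P 0⟩, noMarkov⟩

end Pool.Agent.Results.MP_41928e_lc.Counter
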